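import Pool.Agent.Lib.MP_d43ca8_gt.Final

set_option autoImplicit false

/-!
A closed orientable surface with a tight smooth immersion into Euclidean four-space that has
exactly one double point, which is transversal.
-/

namespace Pool.Agent.Results.MP_d43ca8_gt.OddTight

open Set Topology
open scoped ContDiff Manifold

/-- Euclidean four-space -/
abbrev E4 := EuclideanSpace ℝ (Fin 4)

/-- The model plane of a surface -/
abbrev E2 := EuclideanSpace ℝ (Fin 2)

/-- The Jacobian determinant of a map of the plane. -/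
noncomputable def jacobian (g : E2 → E2) (y : E2) : ℝ := (fderiv ℝ g y).det

/-- Two charts are compatibly oriented: their transition map has positive Jacobian. -/
def SameOrientation {M : Type} [TopologicalSpace M] (e e' : OpenPartialHomeomorph M E2) : Prop :=
  ∀ y ∈ (e.symm ≫ₕ e').source, 0 < jacobian (e.symm ≫ₕ e') y

/-- The charts of the smooth structure of `M`. -/
def smoothCharts (M : Type) [TopologicalSpace M] [ChartedSpace E2 M] :
    Set (OpenPartialHomeomorph M E2) := IsManifold.maximalAtlas (𝓡 2) ∞ M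

/-- A smooth surface is orientable if it is covered by charts of its smooth structure all of whose
transition maps have positive Jacobian determinant. -/
def IsOrientable (M : Type) [TopologicalSpace M] [ChartedSpace E2 M] : Prop :=
  ∃ A ⊆ smoothCharts M, (∀ x : M, ∃ e ∈ A, x ∈ e.source) ∧
    ∀ e ∈ A, ∀ e' ∈ A, SameOrientation e e'

/-- A closed (compact, connected, Hausdorff, boundaryless) smooth surface. -/
structure IsClosedSurface (M : Type) [TopologicalSpace M] [ChartedSpace E2 M] : Prop where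
  smooth : IsManifold (𝓡 2) ∞ M
  hausdorff : T2Space M
  compact : CompactSpace M
  connected : ConnectedSpace M

/-- The differential of a map to four-space. -/
noncomputable def differential {M : Type} [TopologicalSpace M] [ChartedSpace E2 M] (f : M → E4)
    (m : M) : E2 →L[ℝ] E4 := mfderiv (𝓡 2) (𝓡 4) f m

/-- A smooth immersion into four-space. -/
def IsSmoothImmersion {M : Type} [TopologicalSpace M] [ChartedSpace E2 M] (f : M → E4) : Prop :=
  ContMDiff (𝓡 2) (𝓡 4) ∞ f ∧ ∀ m : M, Function.Injective (differential f m)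

/-- A map to four-space is tight if the preimage of every closed half-space is connected
(possibly empty). -/
def IsTight {M : Type} [TopologicalSpace M] (f : M → E4) : Prop :=
  ∀ v : E4, v ≠ 0 → ∀ c : ℝ, IsPreconnected (f ⁻¹' {x | c ≤ inner ℝ v x})

/-- The double points of a map: points of four-space with at least two preimages. -/
def doublePoints {M : Type} (f : M → E4) : Set E4 :=
  {x | ∃ m m' : M, m ≠ m' ∧ f m = x ∧ f m' = x}

/-- The tangent plane of a map at a point, as a linear subspace of four-space. -/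
noncomputable def tangentPlane {M : Type} [TopologicalSpace M] [ChartedSpace E2 M] (f : M → E4)
    (m : M) : Submodule ℝ E4 := LinearMap.range (differential f m : E2 →ₗ[ℝ] E4)

/-- The map has exactly one double point; it has exactly two preimages, and the two tangent
planes there span four-space. -/
def OneTransversalDoublePoint {M : Type} [TopologicalSpace M] [ChartedSpace E2 M]
    (f : M → E4) : Prop :=
  ∃ m₁ m₂ : M, m₁ ≠ m₂ ∧ doublePoints f = {f m₁} ∧ f ⁻¹' {f m₁} = {m₁, m₂} ∧
    tangentPlane f m₁ ⊔ tangentPlane f m₂ = ⊤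

open Pool.Agent.Lib.MP_d43ca8_gt in
theorem result : ∃ (M : Type) (_ : TopologicalSpace M) (_ : ChartedSpace E2 M),
    IsClosedSurface M ∧ IsOrientable M ∧ ∃ f : M → E4, IsSmoothImmersion f ∧ IsTight f ∧
      (doublePoints f).Finite ∧ Odd (doublePoints f).ncard ∧ OneTransversalDoublePoint f := by
  obtain ⟨w₁, w₂, hw₁, hw₂, hne, heq, huniq, htrans⟩ := double_points
  let M : Type := Surf
  let cs : ChartedSpace E2 M := surfCharted
  have hman : IsManifold (𝓡 2) ∞ M := patch_isManifold patches2 patches2_cov base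
  have hsm := patch_contMDiff patches2 patches2_cov base L4
  refine ⟨M, inferInstance, cs, ⟨hman, ?_, ?_, ?_⟩, ?_, fun m => L4 m.1, ⟨hsm.1, ?_⟩, ?_, ?_⟩
  · exact (inferInstance : T2Space Surf)
  · exact isCompact_iff_compactSpace.mp Surf_compact
  · exact Subtype.connectedSpace ⟨Surf_nonempty, Surf_preconnected⟩
  · refine ⟨atlas E2 M, ?_, fun x => ⟨chartAt E2 x, chart_mem_atlas E2 x, mem_chart_source E2 x⟩,
      ?_⟩
    · exact IsManifold.subset_maximalAtlas
    · rintro _ ⟨i, rfl⟩ _ ⟨j, rfl⟩ y hy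
      have h1 := trans_source _ _ base hy
      have h2 := trans_fderiv _ _ base hy
      have h3 := patches2_det i j h1.1 h1.2
      rw [← h2] at h3
      exact h3
  · intro m
    obtain ⟨i, hi, h⟩ := hsm.2 m
    have h3 := L4_injective i ((patches2 i).pi_mem m.1 m.2 hi)
    rw [← h] at h3
    exact h3
  · intro v _ c
    exact Surf_half v c
  · -- the double point
    have hS₁ : psT w₁ ∈ Surf := Or.inr ⟨w₁, hw₁, rfl⟩
    have hS₂ : psT w₂ ∈ Surf := Or.inr ⟨w₂, hw₂, rfl⟩
    have hm : (⟨psT w₁, hS₁⟩ : Surf) ≠ ⟨psT w₂, hS₂⟩ := by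
      intro h
      have h1 : psT w₁ = psT w₂ := congrArg Subtype.val h
      have h2 := congrArg piT h1
      rw [piT_psT (Ann_UT hw₁), piT_psT (Ann_UT hw₂)] at h2
      exact hne h2
    have hf : L4 (psT w₁) = L4 (psT w₂) := by rw [L4_apply, L4_apply, heq]
    have hpair : ∀ m m' : Surf, m ≠ m' → L4 m.1 = L4 m'.1 →
        (m = ⟨psT w₁, hS₁⟩ ∧ m' = ⟨psT w₂, hS₂⟩) ∨ (m = ⟨psT w₂, hS₂⟩ ∧ m' = ⟨psT w₁, hS₁⟩) := by
      intro m m' hmm h
      rw [L4_apply, L4_apply] at h
      have h' := e4_injective h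
      have hmm' : m.1 ≠ m'.1 := fun h => hmm (Subtype.ext h)
      rcases huniq m.1 m'.1 m.2 m'.2 hmm' h' with ⟨h1, h2⟩ | ⟨h1, h2⟩
      · exact Or.inl ⟨Subtype.ext h1, Subtype.ext h2⟩
      · exact Or.inr ⟨Subtype.ext h1, Subtype.ext h2⟩
    have hdp : doublePoints (fun m : M => L4 m.1) = {L4 (psT w₁)} := by
      ext x
      constructor
      · rintro ⟨m, m', hmm, h1, h2⟩
        rcases hpair m m' hmm (h1.trans h2.symm) with ⟨h3, _⟩ | ⟨h3, _⟩
        · rw [Set.mem_singleton_iff, ← h1, h3]
        · rw [Set.mem_singleton_iff, ← h1, h3, hf]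
      · rintro rfl
        exact ⟨⟨psT w₁, hS₁⟩, ⟨psT w₂, hS₂⟩, hm, rfl, hf.symm⟩
    refine ⟨?_, ?_, ⟨psT w₁, hS₁⟩, ⟨psT w₂, hS₂⟩, hm, hdp, ?_, ?_⟩
    · rw [hdp]; exact Set.finite_singleton _
    · rw [hdp, Set.ncard_singleton]; exact odd_one
    · ext m
      constructor
      · intro h
        have h' : L4 m.1 = L4 (psT w₁) := h
        by_cases hmm : m = ⟨psT w₁, hS₁⟩
        · exact Or.inl hmm
        · right
          rcases hpair m ⟨psT w₁, hS₁⟩ hmm h' with ⟨h3, _⟩ | ⟨h3, _⟩
          · exact absurd h3 hmm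
          · exact h3
      · rintro (h | h)
        · rw [h]; rfl
        · rw [h]; exact hf.symm
    · rw [eq_top_iff]
      rintro x -
      obtain ⟨z, rfl⟩ := e4_surjective x
      obtain ⟨v₁, v₂, hv⟩ := htrans z
      rw [← hv, map_add]
      apply Submodule.add_mem_sup
      · refine ⟨e2 v₁, ?_⟩
        have h := mfderiv_T hw₁ ⟨psT w₁, hS₁⟩ rfl
        have h2 : (mfderiv (𝓡 2) (𝓡 4) (fun m : M => L4 m.1) ⟨psT w₁, hS₁⟩ : E2 →L[ℝ] E4)
            (e2 v₁) = e4 (fderiv ℝ (fun w => prj (psT w)) w₁ (e2.symm (e2 v₁))) := by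
          have := congrArg (fun A : E2 →L[ℝ] E4 => A (e2 v₁)) h
          exact this
        rw [e2.symm_apply_apply] at h2
        exact h2
      · refine ⟨e2 v₂, ?_⟩
        have h := mfderiv_T hw₂ ⟨psT w₂, hS₂⟩ rfl
        have h2 : (mfderiv (𝓡 2) (𝓡 4) (fun m : M => L4 m.1) ⟨psT w₂, hS₂⟩ : E2 →L[ℝ] E4)
            (e2 v₂) = e4 (fderiv ℝ (fun w => prj (psT w)) w₂ (e2.symm (e2 v₂))) := by
          have := congrArg (fun A : E2 →L[ℝ] E4 => A (e2 v₂)) h
          exact this
        rw [e2.symm_apply_apply] at h2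
        exact h2

end Pool.Agent.Results.MP_d43ca8_gt.OddTight
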